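import Mathlib
import Pool.Agent.TH497.PW.IntFlow
import Pool.Agent.TH497.TW.Std
import Pool.Agent.TH676.Z.Main

set_option autoImplicit false

/-!
# Nowhere-zero 5-flows in graphs of treewidth at most six (MP_974d84_co)

Every bridgeless multigraph of treewidth at most `6` has a nowhere-zero 5-flow.  There is no
condition on the degrees, on the connectivity or on the number of vertices.

Proof.  Let `G` be a counterexample with a tree decomposition with bags of at most seven vertices
and with as few edges as possible; all bridgeless proper minors of `G` have nowhere-zero
`Z_5`-flows.

(1) All edge cuts have at least three edges, and a cut with three edges isolates a vertex: the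
number of nowhere-zero flows on one side of a cut with three edges is the same for all triples of
nonzero values on the cut (up to the order of deletion and contraction it is a combination of
numbers which do not depend on the triple), so that flows on the two sides can be glued.

(2) `G` has no circuit with at most six edges: delete no edge (length 2, 3, 4), two edges (5) or
three edges (6) of the circuit which are pairwise not adjacent and contract the other edges; by (1)
the result has no bridge.  To a flow of this minor one adds a multiple of the circuit; at most four
of the five multiples are forbidden.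

(3) A graph in which every vertex has at least three neighbours and every circuit has at least
seven edges has treewidth at least seven.  The vertices are eliminated along a tree decomposition
with bags of at most seven vertices; the components of the eliminated part are always trees with
one, two, three or four vertices: when a vertex `r` is eliminated, the components at `r` have
together at most six outer neighbours different from `r`, and counting these (those at distances
`i`, `j` from `r` in different components are different if `i + j` is at most six, and a vertex has
at most one neighbour among those at distance at most three in another component) excludes all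
configurations which would give a larger component.  But the last component has no outer
neighbours.  The McGee graph (girth seven, treewidth seven) shows that this is the limit of (3).
-/

namespace Pool.Agent.Results.MP_974d84_co.TreewidthSix

open Pool.Agent.TH497.PW Pool.Agent.TH497.TW

variable {V E ι : Type}

/-- The edges with exactly one end in `Y`. -/
def boundary [DecidableEq V] [Fintype E] (src dst : E → V) (Y : Finset V) : Finset E :=
  Finset.univ.filter (fun e => ¬ (src e ∈ Y ↔ dst e ∈ Y))

/-- Kirchhoff's law. -/
def IsFlow [DecidableEq V] [Fintype E] (src dst : E → V) (f : E → ℤ) : Prop :=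
  ∀ v : V, ∑ e ∈ Finset.univ.filter (fun e => src e = v), f e
    = ∑ e ∈ Finset.univ.filter (fun e => dst e = v), f e

/-- The sets `X i`, for the nodes `i` of the graph `T`, are a tree decomposition of width at most
`w`: `T` is a tree, every edge has both ends in one of the sets, a vertex in `X i` and `X j` is in
`X k` for all `k` on the path of `T` from `i` to `j`, and the sets have at most `w + 1` elements. -/
structure IsTreeDecomposition [DecidableEq V] (src dst : E → V) (w : ℕ) (T : SimpleGraph ι)
    (X : ι → Finset V) : Prop where
  tree : T.IsTree
  edge : ∀ e, ∃ i, src e ∈ X i ∧ dst e ∈ X i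
  path : ∀ (i j : ι) (p : T.Walk i j), p.IsPath → ∀ k ∈ p.support, X i ∩ X j ⊆ X k
  width : ∀ i, (X i).card ≤ w + 1

theorem isFlow_iff [DecidableEq V] [Fintype E] (src dst : E → V) (f : E → ℤ) :
    IsFlow src dst f ↔
      ∀ v, ∑ e, f e * ((if src e = v then 1 else 0) - (if dst e = v then 1 else 0)) = 0 := by
  unfold IsFlow
  refine forall_congr' fun v => ?_
  rw [Finset.sum_filter, Finset.sum_filter, ← sub_eq_zero, ← Finset.sum_sub_distrib]
  have : ∀ e, (if src e = v then f e else 0) - (if dst e = v then f e else 0)
      = f e * ((if src e = v then 1 else 0) - (if dst e = v then 1 else 0)) := by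
    intro e
    by_cases h1 : src e = v <;> by_cases h2 : dst e = v <;> simp [h1, h2]
  rw [Finset.sum_congr rfl (fun e _ => this e)]

theorem nzf [Fintype V] [DecidableEq V] [Fintype E] [DecidableEq E] (src dst : E → V)
    (h : Pool.Agent.TH676.Z.FlowOn src dst ∅ ∅) : NZF src dst := by
  obtain ⟨f, h1, _, h3⟩ := h
  refine ⟨f, fun e => h3 e (Finset.notMem_empty _) (Finset.notMem_empty _), fun x => ?_⟩
  rw [← h1 x]
  unfold Pool.Agent.TH676.Z.bd
  refine Finset.sum_congr rfl fun e _ => ?_
  unfold ic
  by_cases h4 : src e = x <;> by_cases h5 : dst e = x <;> simp [h4, h5]

theorem result :
    ∀ (V E ι : Type) [Fintype V] [DecidableEq V] [Fintype E] [DecidableEq E] [Fintype ι]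
      (src dst : E → V) (T : SimpleGraph ι) (X : ι → Finset V),
      IsTreeDecomposition src dst 6 T X →
      (∀ Y : Finset V, (boundary src dst Y).card ≠ 1) →
      ∃ f : E → ℤ, IsFlow src dst f ∧ ∀ e, 1 ≤ |f e| ∧ |f e| ≤ 4 := by
  intro V E ι _ _ _ _ _ src dst T X hX hb
  have hTD : HasTD 7 src dst := HasTD.of_tree hX.tree
    (fun i j p hp k hk v hi hj => hX.path i j p hp k hk (Finset.mem_inter.mpr ⟨hi, hj⟩))
    hX.edge hX.width
  have hfl := Pool.Agent.TH676.Z.flowOn hTD (fun Y _ => by rw [Finset.sdiff_empty]; exact hb Y)
  obtain ⟨F, hF, hF0⟩ := int_flow src dst (nzf src dst hfl)
  exact ⟨F, (isFlow_iff src dst F).mpr hF0, hF⟩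

end Pool.Agent.Results.MP_974d84_co.TreewidthSix
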